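import Pool.Agent.Lib.MP_8251dc_co.Curve.CMain

/-!
# Linear relations between the numbers of regular Boolean matrices

`R(m, n)` is the number of regular `m × n` Boolean matrices, `R(n) = R(n, n)`. The double
exponential generating function of the `R(m, n)` is `1` modulo
`κ = x + y + (1 - exp(-x)) (1 - exp(-y))`, and this determines every `R(N, N)` from the
`R(m, k)` with `m ≠ k`, `m + k ≤ 2 N`. Definitions: `Pool.Agent.Lib.MP_8251dc_co.Defs` (`R`) and
`Pool.Agent.Lib.MP_8251dc_co.Curve.CDefs` (`PS`, `egf`, `xx`, `yy`, `ex`, `ey`, `kappa`).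
-/

set_option autoImplicit false

open RegBool

namespace Pool.Agent.Results.MP_8251dc_co.CurveIdentity

theorem result :
    kappa ∣ egf (fun m n => (R m n : ℚ)) - 1 ∧
    ∀ (F : ℕ → ℕ → ℚ) (N : ℕ), kappa ∣ egf F - 1 →
      (∀ m k, m ≠ k → m + k ≤ 2 * N → F m k = (R m k : ℚ)) → F N N = (R N N : ℚ) :=
  ⟨curve, fun F N hF h => curve_unique F _ hF curve N h⟩

end Pool.Agent.Results.MP_8251dc_co.CurveIdentity
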