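import Pool.Agent.Lib.MP_8251dc_co.Inv

/-!
# Regular Boolean matrices and partial orders

`R(m, n)` is the number of regular `m × n` Boolean matrices, `R(n) = R(n, n)`. The definitions are
in `Pool.Agent.Lib.MP_8251dc_co.Defs`.

* The number of regular matrices whose row basis is isomorphic to a given partial order `p`.
* `R(m, n)` is an explicit combination of the numbers `M(r, q)`, the sums of the `q`-th powers of
  the numbers of down-sets of the partial orders on `r` points.
* The number of partial orders on `t` points is an explicit combination of the numbers `R(m, n)`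
  with `m + n ≤ 2 t`.
* The numbers `R(m, n)` with `m ≤ n`, `m + n ≤ N` determine all `M(r, q)` with `2 r + q ≤ N`.
-/

set_option autoImplicit false

open Finset RegBool

namespace Pool.Agent.Results.MP_8251dc_co.PosetFormula

theorem result :
    (∀ (m n r : ℕ) (p : Fin r → Fin r → Bool), p ∈ posets r →
      (aut p : ℤ) * (Nat.card {A : Fin m → Fin n → Bool // Regular A ∧ HasType A p} : ℤ) =
        hit m (downs p) r * hit n (downs p) r) ∧
    (∀ m n : ℕ, (R m n : ℚ) = form (fun r q => (M r q : ℚ)) m n) ∧
    (∀ t : ℕ, (-1 : ℚ) ^ t * ((2 * t).factorial : ℚ) / (t.factorial : ℚ) *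
        ((posets t).card : ℚ) =
      ∑ d ∈ range (2 * t + 1), ((cf t).coeff d : ℚ) *
        ∑ n ∈ range (d + 1), (-1 : ℚ) ^ n * (d.choose n : ℚ) * (R (d - n) n : ℚ)) ∧
    (∀ (N : ℕ) (c : ℕ → ℕ → ℚ),
      (∀ m n, m ≤ n → m + n ≤ N → (R m n : ℚ) = form c m n) →
        ∀ r q, 2 * r + q ≤ N → c r q = M r q) :=
  ⟨fun _ _ _ _ hp => formula_type hp, formula, posets_formula, unique⟩

end Pool.Agent.Results.MP_8251dc_co.PosetFormula
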