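import Mathlib

/-!
# The number of regular Boolean matrices modulo any fixed number

Equal rows (columns) of a Boolean matrix may be identified without changing regularity, so
`R(n) = ∑ S(n,a) S(n,b) Q(a,b)`; permuting distinct rows (columns) shows that `a!` and `b!`
divide `Q(a,b)`.
-/

set_option autoImplicit false

open Finset

namespace Pool.Agent.Results.MP_8251dc_co.ResidueFormula

/-- The Boolean matrix product: `(A B) i j = max_k min (A i k) (B k j)`. -/
noncomputable def bmul {m n k : ℕ} (A : Fin m → Fin n → Bool) (B : Fin n → Fin k → Bool) :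
    Fin m → Fin k → Bool :=
  fun i j => Finset.univ.sup fun l => min (A i l) (B l j)

/-- Regular (rectangular) Boolean matrices: `A X A = A` for some `X`. -/
def Regular {m n : ℕ} (A : Fin m → Fin n → Bool) : Prop :=
  ∃ X : Fin n → Fin m → Bool, bmul (bmul A X) A = A

/-- `R(n)`, the number of regular `n × n` Boolean matrices. -/
noncomputable def R (n : ℕ) : ℕ := Nat.card {A : Fin n → Fin n → Bool // Regular A}

/-- `Q(a,b)`, the number of regular `a × b` Boolean matrices with pairwise distinct rows and
pairwise distinct columns. -/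
noncomputable def Q (a b : ℕ) : ℕ :=
  Nat.card {A : Fin a → Fin b → Bool //
    Regular A ∧ Function.Injective A ∧ Function.Injective (fun j i => A i j)}

section count

variable {Y : Type} [Fintype Y] [DecidableEq Y]

/-- functions with a given image -/
lemma card_image (n : ℕ) : ∀ T : Finset Y,
    (univ.filter (fun f : Fin n → Y => univ.image f = T)).card =
      T.card.factorial * Nat.stirlingSecond n T.card := by
  induction n with
  | zero =>
    intro T
    by_cases hT : T = ∅
    · subst hT
      simp
    · have h1 : T.card ≠ 0 := by simpa using hT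
      obtain ⟨k, hk⟩ := Nat.exists_eq_succ_of_ne_zero h1
      rw [hk]
      have h2 : (univ.filter (fun f : Fin 0 → Y => univ.image f = T)) = ∅ := by
        ext f
        simp [Ne.symm hT]
      rw [h2]
      simp
  | succ n ih =>
    intro T
    have h1 : (univ.filter (fun f : Fin (n + 1) → Y => univ.image f = T)).card =
        ∑ y : Y, (univ.filter (fun f : Fin n → Y => insert y (univ.image f) = T)).card := by
      rw [← Finset.card_sigma]
      refine Finset.card_bij' (fun f _ => ⟨f 0, fun i => f i.succ⟩)
        (fun p _ => Fin.cons p.1 p.2) ?_ ?_ ?_ ?_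
      · intro f hf
        simp only [mem_filter, mem_univ, true_and, mem_sigma] at hf ⊢
        rw [← hf]
        ext z
        simp only [mem_insert, mem_image, mem_univ, true_and]
        constructor
        · rintro (rfl | ⟨i, rfl⟩)
          · exact ⟨0, rfl⟩
          · exact ⟨i.succ, rfl⟩
        · rintro ⟨i, rfl⟩
          refine Fin.cases ?_ (fun j => ?_) i
          · exact Or.inl rfl
          · exact Or.inr ⟨j, rfl⟩
      · rintro ⟨y, f⟩ hf
        simp only [mem_filter, mem_univ, true_and, mem_sigma] at hf ⊢
        rw [← hf]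
        ext z
        simp only [mem_insert, mem_image, mem_univ, true_and]
        constructor
        · rintro ⟨i, rfl⟩
          refine Fin.cases ?_ (fun j => ?_) i
          · exact Or.inl rfl
          · exact Or.inr ⟨j, rfl⟩
        · rintro (rfl | ⟨i, rfl⟩)
          · exact ⟨0, rfl⟩
          · exact ⟨i.succ, rfl⟩
      · intro f _
        exact Fin.cons_self_tail f
      · rintro ⟨y, f⟩ _
        rfl
    have h2 : ∀ y : Y, (univ.filter (fun f : Fin n → Y => insert y (univ.image f) = T)).card =
        if y ∈ T then T.card.factorial * Nat.stirlingSecond n T.card +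
          (T.card - 1).factorial * Nat.stirlingSecond n (T.card - 1) else 0 := by
      intro y
      split_ifs with hy
      · have h3 : (univ.filter (fun f : Fin n → Y => insert y (univ.image f) = T)) =
            (univ.filter (fun f : Fin n → Y => univ.image f = T)) ∪
              (univ.filter (fun f : Fin n → Y => univ.image f = T.erase y)) := by
          ext f
          simp only [mem_filter, mem_univ, true_and, mem_union]
          constructor
          · intro h
            by_cases hyf : y ∈ univ.image f
            · left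
              rw [← h, insert_eq_of_mem hyf]
            · right
              rw [← h, erase_insert hyf]
          · rintro (h | h)
            · rw [h, insert_eq_of_mem hy]
            · rw [h, insert_erase hy]
        rw [h3, card_union_of_disjoint, ih, ih, card_erase_of_mem hy]
        rw [Finset.disjoint_left]
        intro f hf1 hf2
        simp only [mem_filter, mem_univ, true_and] at hf1 hf2
        rw [hf1] at hf2
        have := notMem_erase y T
        rw [← hf2] at this
        exact this hy
      · rw [card_eq_zero, filter_eq_empty_iff]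
        intro f _ h
        exact hy (h ▸ mem_insert_self _ _)
    rw [h1, Finset.sum_congr rfl (fun y _ => h2 y), Finset.sum_ite_mem, Finset.univ_inter,
      Finset.sum_const, smul_eq_mul]
    by_cases hT : T.card = 0
    · rw [hT]
      simp
    · obtain ⟨k, hk⟩ := Nat.exists_eq_succ_of_ne_zero hT
      rw [hk, Nat.succ_eq_add_one, Nat.add_sub_cancel, Nat.stirlingSecond_succ_succ,
        Nat.factorial_succ]
      ring

variable (P : ∀ k, (Fin k → Y) → Prop)

open Classical in
/-- the number of sets of size `a` with the property -/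
noncomputable def tt (a : ℕ) : ℕ :=
  (univ.filter (fun T : Finset Y => T.card = a ∧
    ∃ (k : ℕ) (f : Fin k → Y), univ.image f = T ∧ P k f)).card

variable {P}

lemma card_prop (hP : ∀ k k' (f : Fin k → Y) (f' : Fin k' → Y),
    univ.image f = univ.image f' → P k f → P k' f') (n : ℕ) [DecidablePred (P n)] :
    (univ.filter (fun f : Fin n → Y => P n f)).card =
      ∑ a ∈ range (n + 1), Nat.stirlingSecond n a * (a.factorial * tt P a) := by
  classical
  have h1 : (univ.filter (fun f : Fin n → Y => P n f)).card =
      ∑ T ∈ univ.filter (fun T : Finset Y => ∃ (k : ℕ) (f : Fin k → Y), univ.image f = T ∧ P k f),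
        (univ.filter (fun f : Fin n → Y => univ.image f = T)).card := by
    rw [← Finset.card_biUnion]
    · congr 1
      ext f
      simp only [mem_filter, mem_univ, true_and, mem_biUnion]
      constructor
      · intro h
        exact ⟨univ.image f, ⟨n, f, rfl, h⟩, rfl⟩
      · rintro ⟨T, ⟨k, g, h2, h3⟩, h4⟩
        exact hP k n g f (h2.trans h4.symm) h3
    · intro T _ T' _ hne
      rw [Function.onFun, Finset.disjoint_left]
      intro f h2 h3
      simp only [mem_filter, mem_univ, true_and] at h2 h3
      exact hne (h2.symm.trans h3)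
  rw [h1, Finset.sum_congr rfl (fun T _ => card_image n T)]
  have h2 : ∀ T ∈ univ.filter (fun T : Finset Y =>
      ∃ (k : ℕ) (f : Fin k → Y), univ.image f = T ∧ P k f),
      T.card.factorial * Nat.stirlingSecond n T.card =
        ∑ a ∈ range (n + 1), if T.card = a then Nat.stirlingSecond n a * a.factorial else 0 := by
    intro T _
    rw [Finset.sum_ite_eq]
    split_ifs with h
    · ring
    · rw [Nat.stirlingSecond_eq_zero_of_lt (by simpa using h), mul_zero]
  rw [Finset.sum_congr rfl h2, Finset.sum_comm]
  refine Finset.sum_congr rfl fun a _ => ?_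
  rw [← Finset.sum_filter, Finset.sum_const, smul_eq_mul, Finset.filter_filter]
  unfold tt
  rw [Finset.filter_congr (q := fun T : Finset Y => T.card = a ∧
    ∃ (k : ℕ) (f : Fin k → Y), univ.image f = T ∧ P k f) (fun T _ => by tauto)]
  ring

lemma card_inj (hP : ∀ k k' (f : Fin k → Y) (f' : Fin k' → Y),
    univ.image f = univ.image f' → P k f → P k' f') (a : ℕ)
    [DecidablePred fun f : Fin a → Y => Function.Injective f ∧ P a f] :
    (univ.filter (fun f : Fin a → Y => Function.Injective f ∧ P a f)).card =
      a.factorial * tt P a := by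
  classical
  have h1 : (univ.filter (fun f : Fin a → Y => Function.Injective f ∧ P a f)).card =
      ∑ T ∈ univ.filter (fun T : Finset Y => T.card = a ∧
        ∃ (k : ℕ) (f : Fin k → Y), univ.image f = T ∧ P k f),
        (univ.filter (fun f : Fin a → Y => univ.image f = T)).card := by
    rw [← Finset.card_biUnion]
    · congr 1
      ext f
      simp only [mem_filter, mem_univ, true_and, mem_biUnion]
      constructor
      · rintro ⟨h0, h⟩
        refine ⟨univ.image f, ⟨?_, a, f, rfl, h⟩, rfl⟩
        rw [Finset.card_image_of_injective _ h0, Finset.card_univ, Fintype.card_fin]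
      · rintro ⟨T, ⟨h5, k, g, h2, h3⟩, h4⟩
        refine ⟨?_, hP k a g f (h2.trans h4.symm) h3⟩
        rw [← h4] at h5
        have h6 : (univ.image f).card = (univ : Finset (Fin a)).card := by
          rw [h5, Finset.card_univ, Fintype.card_fin]
        have h7 := Finset.card_image_iff.1 h6
        intro x y hxy
        exact h7 (by simp) (by simp) hxy
    · intro T _ T' _ hne
      rw [Function.onFun, Finset.disjoint_left]
      intro f h2 h3
      simp only [mem_filter, mem_univ, true_and] at h2 h3
      exact hne (h2.symm.trans h3)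
  rw [h1]
  have h2 : ∀ T ∈ univ.filter (fun T : Finset Y => T.card = a ∧
        ∃ (k : ℕ) (f : Fin k → Y), univ.image f = T ∧ P k f),
      (univ.filter (fun f : Fin a → Y => univ.image f = T)).card = a.factorial := by
    intro T hT
    simp only [mem_filter, mem_univ, true_and] at hT
    rw [card_image, hT.1, Nat.stirlingSecond_self, mul_one]
  rw [Finset.sum_congr rfl h2, Finset.sum_const, smul_eq_mul]
  unfold tt
  ring

end count

lemma bmul_true {m n k : ℕ} (A : Fin m → Fin n → Bool) (B : Fin n → Fin k → Bool) (i : Fin m)
    (j : Fin k) : bmul A B i j = true ↔ ∃ l, A i l = true ∧ B l j = true := by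
  unfold bmul
  constructor
  · intro h
    by_contra hc
    push Not at hc
    have h1 : (Finset.univ.sup fun l => min (A i l) (B l j)) ≤ false := by
      refine Finset.sup_le fun l _ => ?_
      have := hc l
      cases h2 : A i l
      · simp
      · simp [this h2]
    rw [h] at h1
    exact absurd h1 (by decide)
  · rintro ⟨l, h1, h2⟩
    have h3 : min (A i l) (B l j) ≤ Finset.univ.sup fun l => min (A i l) (B l j) :=
      Finset.le_sup (f := fun l => min (A i l) (B l j)) (Finset.mem_univ l)
    rw [h1, h2] at h3
    exact top_le_iff.1 h3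

lemma regular_iff {m n : ℕ} (A : Fin m → Fin n → Bool) :
    Regular A ↔ ∃ X : Fin n → Fin m → Bool, ∀ i j,
      (∃ l k, A i k = true ∧ X k l = true ∧ A l j = true) ↔ A i j = true := by
  unfold Regular
  refine exists_congr fun X => ?_
  constructor
  · intro h i j
    rw [← Bool.eq_iff_iff.1 (congrFun (congrFun h i) j), bmul_true]
    refine exists_congr fun l => ?_
    rw [bmul_true]
    constructor
    · rintro ⟨k, h1, h2, h3⟩
      exact ⟨⟨k, h1, h2⟩, h3⟩
    · rintro ⟨⟨k, h1, h2⟩, h3⟩
      exact ⟨k, h1, h2, h3⟩
  · intro h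
    funext i j
    rw [Bool.eq_iff_iff, ← h i j, bmul_true]
    refine exists_congr fun l => ?_
    rw [bmul_true]
    constructor
    · rintro ⟨⟨k, h1, h2⟩, h3⟩
      exact ⟨k, h1, h2, h3⟩
    · rintro ⟨k, h1, h2, h3⟩
      exact ⟨⟨k, h1, h2⟩, h3⟩

/-- transposed matrix -/
def tr {m n : ℕ} (A : Fin m → Fin n → Bool) : Fin n → Fin m → Bool := fun j i => A i j

lemma regular_tr {m n : ℕ} {A : Fin m → Fin n → Bool} (h : Regular A) : Regular (tr A) := by
  rw [regular_iff] at h ⊢
  obtain ⟨X, hX⟩ := h
  refine ⟨tr X, fun i j => ?_⟩
  unfold tr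
  rw [← hX j i]
  constructor
  · rintro ⟨l, k, h1, h2, h3⟩
    exact ⟨k, l, h3, h2, h1⟩
  · rintro ⟨l, k, h1, h2, h3⟩
    exact ⟨k, l, h3, h2, h1⟩

/-- regularity only depends on the set of rows -/
lemma regular_rows {n : ℕ} (k k' : ℕ) (A : Fin k → Fin n → Bool) (A' : Fin k' → Fin n → Bool)
    (h : univ.image A = univ.image A') (hA : Regular A) : Regular A' := by
  rw [regular_iff] at hA ⊢
  obtain ⟨X, hX⟩ := hA
  have h1 : ∀ i', ∃ i, A i = A' i' := by
    intro i'
    have : A' i' ∈ univ.image A := h ▸ mem_image_of_mem _ (mem_univ _)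
    obtain ⟨i, _, hi⟩ := mem_image.1 this
    exact ⟨i, hi⟩
  have h2 : ∀ i, ∃ i', A' i' = A i := by
    intro i
    have : A i ∈ univ.image A' := h ▸ mem_image_of_mem _ (mem_univ _)
    obtain ⟨i', _, hi⟩ := mem_image.1 this
    exact ⟨i', hi⟩
  choose f hf using h1
  choose g hg using h2
  refine ⟨fun j i' => decide (∃ i, X j i = true ∧ A' i' = A i), fun i' j => ?_⟩
  have h3 := hX (f i') j
  rw [hf] at h3
  rw [← h3]
  simp only [decide_eq_true_eq]
  constructor
  · rintro ⟨l', l, h4, ⟨i, h5, h6⟩, h7⟩
    rw [h6] at h7
    exact ⟨i, l, h4, h5, h7⟩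
  · rintro ⟨i, l, h4, h5, h7⟩
    exact ⟨g i, l, h4, ⟨i, h5, hg i⟩, by rw [hg i]; exact h7⟩

/-- having distinct columns only depends on the set of rows -/
lemma cols_rows {n : ℕ} (k k' : ℕ) (A : Fin k → Fin n → Bool) (A' : Fin k' → Fin n → Bool)
    (h : univ.image A = univ.image A') (hA : Function.Injective (tr A)) :
    Function.Injective (tr A') := by
  intro j j' hj
  apply hA
  funext i
  have : A i ∈ univ.image A' := h ▸ mem_image_of_mem _ (mem_univ _)
  obtain ⟨i', _, hi⟩ := mem_image.1 this
  have h1 := congrFun hj i'
  unfold tr at h1 ⊢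
  rw [← hi]
  exact h1

open Classical in
lemma card_Q (a b : ℕ) : Q a b = (univ.filter (fun A : Fin a → Fin b → Bool =>
    Regular A ∧ Function.Injective A ∧ Function.Injective (fun j i => A i j))).card := by
  unfold Q
  rw [Nat.card_eq_fintype_card, Fintype.card_subtype]

/-- transposition -/
lemma card_tr {a b : ℕ} (P : (Fin a → Fin b → Bool) → Prop) [DecidablePred P]
    [DecidablePred fun B : Fin b → Fin a → Bool => P (tr B)] :
    (univ.filter P).card = (univ.filter (fun B : Fin b → Fin a → Bool => P (tr B))).card := by
  refine Finset.card_bij' (fun A _ => tr A) (fun B _ => tr B) ?_ ?_ ?_ ?_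
  · intro A hA
    simp only [mem_filter, mem_univ, true_and] at hA ⊢
    exact hA
  · intro A hA
    simp only [mem_filter, mem_univ, true_and] at hA ⊢
    exact hA
  · intro A _
    rfl
  · intro A _
    rfl

open Classical in
/-- the number of regular matrices, from those with distinct rows and columns -/
lemma R_eq (n : ℕ) : R n = ∑ a ∈ range (n + 1), ∑ b ∈ range (n + 1),
    Nat.stirlingSecond n a * Nat.stirlingSecond n b * Q a b := by
  unfold R
  rw [Nat.card_eq_fintype_card, Fintype.card_subtype]
  have hP : ∀ k k' (f : Fin k → Fin n → Bool) (f' : Fin k' → Fin n → Bool),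
    univ.image f = univ.image f' → Regular f → Regular f' := fun k k' f f' => regular_rows k k' f f'
  rw [card_prop (P := fun k (A : Fin k → Fin n → Bool) => Regular A) hP]
  refine Finset.sum_congr rfl fun a _ => ?_
  rw [← card_inj (P := fun k (A : Fin k → Fin n → Bool) => Regular A) hP, card_tr]
  have hP' : ∀ k k' (f : Fin k → Fin a → Bool) (f' : Fin k' → Fin a → Bool),
      univ.image f = univ.image f' → (Function.Injective (tr f) ∧ Regular (tr f)) →
        (Function.Injective (tr f') ∧ Regular (tr f')) := by
    intro k k' f f' h1 h2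
    refine ⟨cols_rows k k' f f' h1 h2.1, ?_⟩
    exact regular_tr (regular_rows k k' f f' h1 (regular_tr h2.2))
  rw [card_prop (P := fun k (A : Fin k → Fin a → Bool) => Function.Injective (tr A) ∧
    Regular (tr A)) hP', Finset.mul_sum]
  refine Finset.sum_congr rfl fun b _ => ?_
  rw [← card_inj (P := fun k (A : Fin k → Fin a → Bool) => Function.Injective (tr A) ∧
    Regular (tr A)) hP', card_Q, card_tr, mul_assoc]
  congr 2
  congr 1
  ext A
  simp only [mem_filter, mem_univ, true_and]
  unfold tr
  tauto

lemma fact_dvd_left (a b : ℕ) : a.factorial ∣ Q a b := by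
  classical
  have hP : ∀ k k' (f : Fin k → Fin b → Bool) (f' : Fin k' → Fin b → Bool),
      univ.image f = univ.image f' → (Function.Injective (tr f) ∧ Regular f) →
        (Function.Injective (tr f') ∧ Regular f') := by
    intro k k' f f' h1 h2
    exact ⟨cols_rows k k' f f' h1 h2.1, regular_rows k k' f f' h1 h2.2⟩
  rw [card_Q]
  have h1 := card_inj (P := fun k (A : Fin k → Fin b → Bool) => Function.Injective (tr A) ∧
    Regular A) hP a
  refine ⟨tt (fun k (A : Fin k → Fin b → Bool) => Function.Injective (tr A) ∧ Regular A) a, ?_⟩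
  rw [← h1]
  congr 1
  ext A
  simp only [mem_filter, mem_univ, true_and]
  unfold tr
  tauto

lemma Q_comm (a b : ℕ) : Q a b = Q b a := by
  classical
  rw [card_Q, card_Q, card_tr]
  congr 1
  ext A
  simp only [mem_filter, mem_univ, true_and]
  constructor
  · rintro ⟨h1, h2, h3⟩
    exact ⟨regular_tr h1, h3, h2⟩
  · rintro ⟨h1, h2, h3⟩
    exact ⟨regular_tr h1, h3, h2⟩

/-- **Closed formula for `R(n)` modulo `m`.** If `m ∣ N!` then for all `n`, modulo `m`,
`R(n)` is the sum of `S(n,a) S(n,b) Q(a,b)` over `a, b < N`, `S` the Stirling numbers of the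
second kind: the constants `Q(a,b)` do not depend on `n`. -/
theorem result (m N : ℕ) (hm : m ∣ N.factorial) (n : ℕ) :
    R n ≡ ∑ a ∈ range N, ∑ b ∈ range N,
      Nat.stirlingSecond n a * Nat.stirlingSecond n b * Q a b [MOD m] := by
  have h1 : ∀ a b, N ≤ a → m ∣ Q a b := by
    intro a b h
    exact (hm.trans (Nat.factorial_dvd_factorial h)).trans (fact_dvd_left a b)
  have h2 : ∀ a b, N ≤ b → m ∣ Q a b := by
    intro a b h
    rw [Q_comm]
    exact h1 b a h
  -- both sides are congruent to the full sum over `range (n + 1 + N)`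
  have h3 : R n = ∑ a ∈ range (n + 1 + N), ∑ b ∈ range (n + 1 + N),
      Nat.stirlingSecond n a * Nat.stirlingSecond n b * Q a b := by
    rw [R_eq]
    have h4 : ∀ f : ℕ → ℕ, ∑ b ∈ range (n + 1), Nat.stirlingSecond n b * f b =
        ∑ b ∈ range (n + 1 + N), Nat.stirlingSecond n b * f b := by
      intro f
      refine Finset.sum_subset (fun x hx => ?_) (fun x _ hx => ?_)
      · rw [mem_range] at hx ⊢
        omega
      · rw [mem_range, not_lt] at hx
        rw [Nat.stirlingSecond_eq_zero_of_lt (by omega), zero_mul]
    have h5 : ∀ K, ∑ a ∈ range K, ∑ b ∈ range (n + 1),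
        Nat.stirlingSecond n a * Nat.stirlingSecond n b * Q a b =
        ∑ a ∈ range K, ∑ b ∈ range (n + 1 + N),
        Nat.stirlingSecond n a * Nat.stirlingSecond n b * Q a b := by
      intro K
      refine Finset.sum_congr rfl fun a _ => ?_
      have h6 := h4 (fun b => Nat.stirlingSecond n a * Q a b)
      calc _ = ∑ b ∈ range (n + 1), Nat.stirlingSecond n b * (Nat.stirlingSecond n a * Q a b) :=
            Finset.sum_congr rfl fun b _ => by ring
        _ = _ := h6
        _ = _ := Finset.sum_congr rfl fun b _ => by ring
    rw [h5]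
    have h6 := h4 (fun a => ∑ b ∈ range (n + 1 + N), Nat.stirlingSecond n b * Q a b)
    calc _ = ∑ a ∈ range (n + 1), Nat.stirlingSecond n a *
            (∑ b ∈ range (n + 1 + N), Nat.stirlingSecond n b * Q a b) :=
          Finset.sum_congr rfl fun a _ => by
            rw [Finset.mul_sum]
            exact Finset.sum_congr rfl fun b _ => by ring
      _ = _ := h6
      _ = _ := Finset.sum_congr rfl fun a _ => by
            rw [Finset.mul_sum]
            exact Finset.sum_congr rfl fun b _ => by ring
  rw [h3]
  have hsub : range N ⊆ range (n + 1 + N) := fun x hx => by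
    rw [mem_range] at hx ⊢
    omega
  rw [← Finset.sum_sdiff hsub]
  have h7 : (∑ a ∈ range (n + 1 + N) \ range N, ∑ b ∈ range (n + 1 + N),
      Nat.stirlingSecond n a * Nat.stirlingSecond n b * Q a b) ≡ 0 [MOD m] := by
    rw [Nat.modEq_zero_iff_dvd]
    refine Finset.dvd_sum fun a ha => Finset.dvd_sum fun b _ => ?_
    rw [mem_sdiff, mem_range, mem_range, not_lt] at ha
    exact Dvd.dvd.mul_left (h1 a b ha.2) _
  have h8 : (∑ a ∈ range N, ∑ b ∈ range (n + 1 + N),
      Nat.stirlingSecond n a * Nat.stirlingSecond n b * Q a b) ≡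
      ∑ a ∈ range N, ∑ b ∈ range N,
      Nat.stirlingSecond n a * Nat.stirlingSecond n b * Q a b [MOD m] := by
    refine Nat.ModEq.sum fun a _ => ?_
    rw [← Finset.sum_sdiff hsub]
    have h9 : (∑ b ∈ range (n + 1 + N) \ range N,
        Nat.stirlingSecond n a * Nat.stirlingSecond n b * Q a b) ≡ 0 [MOD m] := by
      rw [Nat.modEq_zero_iff_dvd]
      refine Finset.dvd_sum fun b hb => ?_
      rw [mem_sdiff, mem_range, mem_range, not_lt] at hb
      exact Dvd.dvd.mul_left (h2 a b hb.2) _
    have h10 := h9.add_right (∑ b ∈ range N,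
      Nat.stirlingSecond n a * Nat.stirlingSecond n b * Q a b)
    rwa [zero_add] at h10
  have h11 := h7.add h8
  rwa [zero_add] at h11

end Pool.Agent.Results.MP_8251dc_co.ResidueFormula
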