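import Pool.Agent.Lib.MP_8251dc_co.SP.SMain

/-!
# The number of regular Boolean matrices with series-parallel (N-free) row basis

Definitions: `Pool.Agent.Lib.MP_8251dc_co.Defs` (`Regular`, `basisRows`, `form`) and
`Pool.Agent.Lib.MP_8251dc_co.SP.SDefs` (`NFreeMat`, `sh`, `SPRec`).
-/

set_option autoImplicit false

open RegBool

namespace Pool.Agent.Results.MP_8251dc_co.SeriesParallel

theorem result :
    ∃ A C D : ℕ → ℕ → ℤ, SPRec A C D ∧ (∀ A' C' D', SPRec A' C' D' → A' = A) ∧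
      ∀ m n : ℕ, (Nat.card {X : Fin m → Fin n → Bool // Regular X ∧ NFreeMat X} : ℚ) =
        form (fun r q => (A r q : ℚ)) m n :=
  ⟨AA, CC, DD, SPRec_AA, fun _ _ _ h => SPRec.unique h SPRec_AA, NF_count⟩

end Pool.Agent.Results.MP_8251dc_co.SeriesParallel
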